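import Mathlib

set_option autoImplicit false

open MeasureTheory
open scoped ENNReal ContDiff Nat

namespace Pool.Agent.W855.BH

section line
variable {E : Type*} [NormedAddCommGroup E] [NormedSpace ℝ E]

theorem line_deriv (χ : E → ℝ) (hχ : ContDiff ℝ ∞ χ) (t v : E) (m : ℕ) (s : ℝ) :
    iteratedDeriv m (fun s : ℝ => χ (t + s • v)) s =
      iteratedFDeriv ℝ m χ (t + s • v) (fun _ => v) := by
  have h1 : (fun s : ℝ => χ (t + s • v)) =
      (fun z => χ (t + z)) ∘ (ContinuousLinearMap.toSpanSingleton ℝ v) := by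
    ext s
    simp [ContinuousLinearMap.toSpanSingleton_apply]
  have h2 : ContDiff ℝ ∞ (fun z => χ (t + z)) := hχ.comp (contDiff_const.add contDiff_id)
  rw [iteratedDeriv_eq_iteratedFDeriv, h1,
    ContinuousLinearMap.iteratedFDeriv_comp_right _ h2 s (i := m) (by exact_mod_cast le_top)]
  rw [ContinuousMultilinearMap.compContinuousLinearMap_apply, iteratedFDeriv_comp_add_left]
  simp [ContinuousLinearMap.toSpanSingleton_apply]

theorem taylor_line (χ : E → ℝ) (hχ : ContDiff ℝ ∞ χ) (N : ℕ) (D : ℝ)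
    (hD : ∀ z, ‖iteratedFDeriv ℝ (N + 1) χ z‖ ≤ D) (t v : E) :
    |χ (t + v) - ∑ m ∈ Finset.range (N + 1),
      ((m ! : ℝ)⁻¹) * iteratedFDeriv ℝ m χ t (fun _ => v)| ≤ D * ‖v‖ ^ (N + 1) := by
  have hf : ContDiff ℝ ∞ (fun s : ℝ => χ (t + s • v)) :=
    hχ.comp (contDiff_const.add (contDiff_id.smul contDiff_const))
  have hu : UniqueDiffOn ℝ (Set.Icc (0 : ℝ) 1) := uniqueDiffOn_Icc (by norm_num)
  have hit : ∀ (m : ℕ) (y : ℝ), y ∈ Set.Icc (0 : ℝ) 1 →
      iteratedDerivWithin m (fun s : ℝ => χ (t + s • v)) (Set.Icc 0 1) y =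
        iteratedFDeriv ℝ m χ (t + y • v) (fun _ => v) := by
    intro m y hy
    rw [iteratedDerivWithin_eq_iteratedDeriv hu ((hf.of_le (by exact_mod_cast le_top)).contDiffAt) hy,
      line_deriv χ hχ]
  have hD0 : 0 ≤ D := (norm_nonneg _).trans (hD 0)
  have key := taylor_mean_remainder_bound (f := fun s : ℝ => χ (t + s • v)) (a := 0) (b := 1)
    (C := D * ‖v‖ ^ (N + 1)) (x := 1) (n := N) (by norm_num)
    ((hf.of_le (by exact_mod_cast le_top)).contDiffOn) (by simp) (by
      intro y hy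
      rw [hit _ y hy]
      refine ((iteratedFDeriv ℝ (N + 1) χ (t + y • v)).le_opNorm _).trans ?_
      rw [Finset.prod_const, Finset.card_univ, Fintype.card_fin]
      gcongr
      exact hD _)
  rw [taylor_within_apply] at key
  simp only [one_smul, sub_zero, one_pow, mul_one, Real.norm_eq_abs] at key
  have e : ∑ k ∈ Finset.range (N + 1), ((k ! : ℝ)⁻¹) •
      iteratedDerivWithin k (fun s : ℝ => χ (t + s • v)) (Set.Icc 0 1) 0 =
      ∑ m ∈ Finset.range (N + 1), ((m ! : ℝ)⁻¹) * iteratedFDeriv ℝ m χ t (fun _ => v) := by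
    apply Finset.sum_congr rfl
    intro m _
    rw [hit m 0 (by simp)]
    simp
  rw [e] at key
  refine key.trans ?_
  apply div_le_self (by positivity)
  exact_mod_cast Nat.one_le_iff_ne_zero.2 (Nat.factorial_ne_zero N)

end line

end Pool.Agent.W855.BH
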