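import Pool.Agent.W91.BH.Stm
import Pool.Agent.W855.BH.T1

set_option autoImplicit false

open MeasureTheory
open scoped ENNReal ContDiff Nat

namespace Pool.Agent.W855.BH

open Pool.Agent.W91.BH

theorem mom_shift (hM : S_MOM) (n N : ℕ) (a : E n → ℝ) (ha : Continuous a)
    (hc : HasCompactSupport a)
    (hv : ∀ β : Fin n → ℕ, ∑ i, β i ≤ N → ∫ x, (∏ i, x i ^ β i) * a x = 0)
    (c : E n) (β : Fin n → ℕ) (hβ : ∑ i, β i ≤ N) :
    ∫ x : E n, (∏ i, (x i - c i) ^ β i) * a x = 0 := by
  have h1 := hM n N a ha hc (fun β hβ => hv β hβ.le) β (-c) hβ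
  rw [hv β hβ] at h1
  rw [← h1]
  have h2 := integral_sub_right_eq_self (μ := (volume : Measure (E n)))
    (fun x : E n => (∏ i, x i ^ β i) * a (x - -c)) c
  rw [← h2]
  apply integral_congr_ae
  filter_upwards with x
  simp

theorem prod_fiber {m n : ℕ} (ρ : Fin m → Fin n) (f : Fin n → ℝ) :
    ∏ k, f (ρ k) = ∏ i, f i ^ (Finset.univ.filter (fun k => ρ k = i)).card := by
  rw [← Finset.prod_fiberwise Finset.univ ρ (fun k => f (ρ k))]
  apply Finset.prod_congr rfl
  intro i _
  rw [← Finset.prod_const]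
  apply Finset.prod_congr rfl
  intro k hk
  rw [(Finset.mem_filter.1 hk).2]

theorem sum_fiber {m n : ℕ} (ρ : Fin m → Fin n) :
    ∑ i, (Finset.univ.filter (fun k => ρ k = i)).card = m := by
  have h := Finset.card_eq_sum_card_fiberwise (f := ρ) (s := Finset.univ) (t := Finset.univ)
    (by intro x _; simp)
  simpa using h.symm

theorem T_expand {m n : ℕ} (T : ContinuousMultilinearMap ℝ (fun _ : Fin m => E n) ℝ)
    (v : E n) : T (fun _ => v) = ∑ ρ : Fin m → Fin n,
      (∏ i, v i ^ (Finset.univ.filter (fun k => ρ k = i)).card) *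
        T (fun k => EuclideanSpace.single (ρ k) (1 : ℝ)) := by
  have h1 : v = ∑ i : Fin n, v i • (EuclideanSpace.single i (1 : ℝ) : E n) := by
    ext j
    simp [Finset.sum_apply, Pi.single_apply]
  conv_lhs => rw [h1]
  rw [ContinuousMultilinearMap.map_sum]
  apply Finset.sum_congr rfl
  intro ρ _
  rw [ContinuousMultilinearMap.map_smul_univ, smul_eq_mul, prod_fiber ρ (fun i => v i)]

theorem T_mom (hM : S_MOM) (n N : ℕ) (a : E n → ℝ) (ha : Continuous a)
    (hc : HasCompactSupport a)
    (hv : ∀ β : Fin n → ℕ, ∑ i, β i ≤ N → ∫ x, (∏ i, x i ^ β i) * a x = 0)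
    (c : E n) (r : ℝ) (m : ℕ) (hm : m ≤ N)
    (T : ContinuousMultilinearMap ℝ (fun _ : Fin m => E n) ℝ) :
    ∫ x : E n, a x * T (fun _ => r • (x - c)) = 0 := by
  have h1 : (fun x : E n => a x * T (fun _ => r • (x - c))) = fun x : E n =>
      ∑ ρ : Fin m → Fin n, ((∏ i, r ^ (Finset.univ.filter (fun k => ρ k = i)).card) *
        T (fun k => EuclideanSpace.single (ρ k) (1 : ℝ))) *
        ((∏ i, (x i - c i) ^ (Finset.univ.filter (fun k => ρ k = i)).card) * a x) := by
    ext x
    rw [T_expand, Finset.mul_sum]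
    apply Finset.sum_congr rfl
    intro ρ _
    have : ∀ i, (r • (x - c)) i = r * (x i - c i) := by
      intro i
      simp
    simp only [this, mul_pow, Finset.prod_mul_distrib]
    ring
  rw [h1, integral_finsetSum]
  · apply Finset.sum_eq_zero
    intro ρ _
    rw [integral_const_mul, mom_shift hM n N a ha hc hv c _ (by rw [sum_fiber]; exact hm), mul_zero]
  · intro ρ _
    apply Integrable.const_mul
    apply Continuous.integrable_of_hasCompactSupport
    · apply Continuous.mul _ ha
      apply continuous_finsetProd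
      intro i _
      fun_prop
    · exact hc.mul_left

end Pool.Agent.W855.BH
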