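import Pool.Agent.W91.BH.Stm
import Pool.Agent.W855.BH.T2

set_option autoImplicit false

open MeasureTheory
open scoped ENNReal ContDiff Nat

namespace Pool.Agent.W855.BH

open Pool.Agent.W91.BH

/-- centre -/
noncomputable def cc (n : ℕ) (Q : Idx n) : E n :=
  WithLp.toLp 2 (fun i => ((2 : ℝ) ^ Q.1)⁻¹ * ((Q.2 i : ℝ) + 1 / 2))

theorem dist_cc (n : ℕ) (Q : Idx n) (x : E n)
    (hx : ∀ i, |(2 : ℝ) ^ Q.1 * x i - ((Q.2 i : ℝ) + 1 / 2)| ≤ 3 / 2) :
    dist x (cc n Q) ≤ Real.sqrt n * (3 / 2) * ((2 : ℝ) ^ Q.1)⁻¹ := by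
  have hp : (0 : ℝ) < (2 : ℝ) ^ Q.1 := by positivity
  have h1 : ∀ i, |x i - cc n Q i| ≤ 3 / 2 * ((2 : ℝ) ^ Q.1)⁻¹ := by
    intro i
    have h2 : x i - cc n Q i =
        ((2 : ℝ) ^ Q.1)⁻¹ * ((2 : ℝ) ^ Q.1 * x i - ((Q.2 i : ℝ) + 1 / 2)) := by
      simp only [cc]
      field_simp
    rw [h2, abs_mul, abs_of_pos (by positivity : (0 : ℝ) < ((2 : ℝ) ^ Q.1)⁻¹), mul_comm]
    gcongr
    exact hx i
  rw [EuclideanSpace.dist_eq]
  have h3 : ∑ i, dist (x i) (cc n Q i) ^ 2 ≤ n * (3 / 2 * ((2 : ℝ) ^ Q.1)⁻¹) ^ 2 := by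
    calc ∑ i, dist (x i) (cc n Q i) ^ 2 ≤ ∑ _i : Fin n, (3 / 2 * ((2 : ℝ) ^ Q.1)⁻¹) ^ 2 := by
          apply Finset.sum_le_sum
          intro i _
          rw [Real.dist_eq]
          gcongr
          exact h1 i
      _ = _ := by simp
  calc Real.sqrt (∑ i, dist (x i) (cc n Q i) ^ 2)
      ≤ Real.sqrt (n * (3 / 2 * ((2 : ℝ) ^ Q.1)⁻¹) ^ 2) := Real.sqrt_le_sqrt h3
    _ = Real.sqrt n * (3 / 2) * ((2 : ℝ) ^ Q.1)⁻¹ := by
        rw [Real.sqrt_mul (by positivity), Real.sqrt_sq (by positivity)]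
        ring

theorem atom_supp {n M N : ℕ} {Q : Idx n} {a : E n → ℝ} (h : IsAtom n M N Q a) :
    Function.support a ⊆
      Metric.closedBall (cc n Q) (Real.sqrt n * (3 / 2) * ((2 : ℝ) ^ Q.1)⁻¹) := by
  intro x hx
  exact dist_cc n Q x (h.supp x hx)

theorem atom_compact {n M N : ℕ} {Q : Idx n} {a : E n → ℝ} (h : IsAtom n M N Q a) :
    HasCompactSupport a :=
  HasCompactSupport.of_support_subset_isCompact (isCompact_closedBall _ _) (atom_supp h)

theorem atom_le {n M N : ℕ} {Q : Idx n} {a : E n → ℝ} (h : IsAtom n M N Q a) (x : E n) :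
    |a x| ≤ 1 := by
  have := h.bound 0 (Nat.zero_le _) x
  simpa using this

theorem pair_hi (hM : S_MOM) (n M N : ℕ) (χ : E n → ℝ) (hχ : ContDiff ℝ ∞ χ) (D : ℝ)
    (hD : ∀ z, ‖iteratedFDeriv ℝ (N + 1) χ z‖ ≤ D) (Q : Idx n) (hQ : 0 < Q.1)
    (a : E n → ℝ) (ha : IsAtom n M N Q a) (r : ℝ) (hr : 0 ≤ r) (x : E n) :
    |∫ y, a y * χ (r • (y - x))| ≤
      D * (r * (Real.sqrt n * (3 / 2) * ((2 : ℝ) ^ Q.1)⁻¹)) ^ (N + 1) *
        ((Real.sqrt n * (3 / 2) * ((2 : ℝ) ^ Q.1)⁻¹) ^ n *
          (volume (Metric.ball (0 : E n) 1)).toReal) := by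
  set c := cc n Q with hc
  set R : ℝ := Real.sqrt n * (3 / 2) * ((2 : ℝ) ^ Q.1)⁻¹ with hR
  have hR0 : 0 ≤ R := by positivity
  have hD0 : 0 ≤ D := (norm_nonneg _).trans (hD 0)
  set t : E n := r • (c - x) with ht
  have e0 : ∀ y, r • (y - x) = t + r • (y - c) := by
    intro y
    rw [ht, ← smul_add]
    congr 1
    abel
  set P : E n → ℝ := fun y => ∑ m ∈ Finset.range (N + 1),
      ((m ! : ℝ)⁻¹) * iteratedFDeriv ℝ m χ t (fun _ => r • (y - c)) with hP
  have hac : Continuous a := ha.smooth.continuous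
  have hPc : Continuous P := by
    rw [hP]
    apply continuous_finsetSum
    intro m _
    apply continuous_const.mul
    apply (iteratedFDeriv ℝ m χ t).cont.comp
    apply continuous_pi
    intro _
    fun_prop
  have hint1 : Integrable (fun y => a y * χ (r • (y - x))) := by
    apply Continuous.integrable_of_hasCompactSupport
    · exact hac.mul (hχ.continuous.comp (by fun_prop))
    · exact (atom_compact ha).mul_right
  have hint2 : Integrable (fun y => a y * P y) := by
    apply Continuous.integrable_of_hasCompactSupport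
    · exact hac.mul hPc
    · exact (atom_compact ha).mul_right
  have hP0 : ∫ y, a y * P y = 0 := by
    have e1 : (fun y => a y * P y) = fun y => ∑ m ∈ Finset.range (N + 1),
        ((m ! : ℝ)⁻¹) * (a y * iteratedFDeriv ℝ m χ t (fun _ => r • (y - c))) := by
      ext y
      rw [hP]
      simp only
      rw [Finset.mul_sum]
      apply Finset.sum_congr rfl
      intro m _
      ring
    rw [e1, integral_finsetSum]
    · apply Finset.sum_eq_zero
      intro m hm
      rw [integral_const_mul, T_mom hM n N a hac (atom_compact ha) (ha.moment hQ) c r m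
        (by have := Finset.mem_range.1 hm; omega), mul_zero]
    · intro m _
      apply Integrable.const_mul
      apply Continuous.integrable_of_hasCompactSupport
      · apply hac.mul
        apply (iteratedFDeriv ℝ m χ t).cont.comp
        apply continuous_pi
        intro _
        fun_prop
      · exact (atom_compact ha).mul_right
  have e2 : ∫ y, a y * χ (r • (y - x)) = ∫ y, a y * (χ (r • (y - x)) - P y) := by
    have : (fun y => a y * (χ (r • (y - x)) - P y)) =
        fun y => a y * χ (r • (y - x)) - a y * P y := by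
      ext y; ring
    rw [this, integral_sub hint1 hint2, hP0, sub_zero]
  have e3 : ∫ y, a y * (χ (r • (y - x)) - P y) =
      ∫ y in Metric.closedBall c R, a y * (χ (r • (y - x)) - P y) := by
    symm
    apply setIntegral_eq_integral_of_forall_compl_eq_zero
    intro y hy
    have : a y = 0 := by
      by_contra h
      exact hy (atom_supp ha h)
    rw [this, zero_mul]
  rw [e2, e3]
  have key := norm_setIntegral_le_of_norm_le_const (μ := (volume : Measure (E n)))
    (s := Metric.closedBall c R) (f := fun y => a y * (χ (r • (y - x)) - P y))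
    (C := D * (r * R) ^ (N + 1)) (measure_closedBall_lt_top) (by
      intro y hy
      rw [norm_mul]
      have h1 : ‖a y‖ ≤ 1 := atom_le ha y
      have h2 : ‖χ (r • (y - x)) - P y‖ ≤ D * ‖r • (y - c)‖ ^ (N + 1) := by
        rw [e0 y]
        exact taylor_line χ hχ N D hD t (r • (y - c))
      have h3 : ‖r • (y - c)‖ ≤ r * R := by
        rw [norm_smul, Real.norm_of_nonneg hr]
        gcongr
        rw [← dist_eq_norm]
        exact hy
      calc ‖a y‖ * ‖χ (r • (y - x)) - P y‖ ≤ 1 * (D * (r * R) ^ (N + 1)) := by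
            gcongr
            exact h2.trans (by gcongr)
        _ = _ := one_mul _)
  rw [Real.norm_eq_abs] at key
  refine key.trans (le_of_eq ?_)
  congr 1
  rw [measureReal_def, Measure.addHaar_closedBall _ _ hR0, ENNReal.toReal_mul,
    ENNReal.toReal_ofReal (by positivity)]
  simp

end Pool.Agent.W855.BH
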