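import Pool.Agent.W91.BH.Stm
import Pool.Agent.W855.BH.T3

set_option autoImplicit false

open MeasureTheory
open scoped ENNReal ContDiff Nat

namespace Pool.Agent.W855.BH

open Pool.Agent.W91.BH

noncomputable def bump (n : ℕ) : ContDiffBump (0 : E n) := ⟨1 / 2, 1, by norm_num, by norm_num⟩

noncomputable def chi (n : ℕ) : E n → ℝ := (bump n).normed volume

theorem chi_smooth (n : ℕ) : ContDiff ℝ ∞ (chi n) := (bump n).contDiff_normed

theorem chi_nonneg (n : ℕ) (x : E n) : 0 ≤ chi n x := (bump n).nonneg_normed x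

theorem chi_compact (n : ℕ) : HasCompactSupport (chi n) := (bump n).hasCompactSupport_normed

theorem chi_int (n : ℕ) : ∫ x, chi n x = 1 := (bump n).integral_normed

theorem chi_supp (n : ℕ) (x : E n) (hx : chi n x ≠ 0) : ‖x‖ < 1 := by
  have h : x ∈ Function.support ((bump n).normed volume) := hx
  rw [(bump n).support_normed_eq] at h
  rw [mem_ball_zero_iff] at h
  exact h

theorem chi_D (n N : ℕ) : ∃ D : ℝ, ∀ z, ‖iteratedFDeriv ℝ (N + 1) (chi n) z‖ ≤ D :=
  ((chi_smooth n).continuous_iteratedFDeriv (by exact_mod_cast le_top)).bounded_above_of_compact_support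
    ((chi_compact n).iteratedFDeriv (N + 1))

/-- the mollifier at the point `x`, scale `2 ^ (-j)` -/
noncomputable def ph (n j : ℕ) (x y : E n) : ℝ := ((2 : ℝ) ^ j) ^ n * chi n ((2 : ℝ) ^ j • (y - x))

theorem ph_smooth (n j : ℕ) (x : E n) : ContDiff ℝ ∞ (ph n j x) := by
  unfold ph
  apply contDiff_const.mul
  apply (chi_smooth n).comp
  fun_prop

theorem ph_nonneg (n j : ℕ) (x y : E n) : 0 ≤ ph n j x y :=
  mul_nonneg (by positivity) (chi_nonneg n _)

theorem ph_supp (n j : ℕ) (x y : E n) (h : ph n j x y ≠ 0) : dist y x ≤ ((2 : ℝ) ^ j)⁻¹ := by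
  have h1 : chi n ((2 : ℝ) ^ j • (y - x)) ≠ 0 := by
    intro h2
    apply h
    unfold ph
    rw [h2, mul_zero]
  have h3 := chi_supp n _ h1
  rw [norm_smul, Real.norm_of_nonneg (by positivity), ← dist_eq_norm] at h3
  have h4 : (0 : ℝ) < (2 : ℝ) ^ j := by positivity
  rw [← mul_le_mul_iff_right₀ h4, mul_inv_cancel₀ h4.ne']
  exact h3.le

theorem ph_compact (n j : ℕ) (x : E n) : HasCompactSupport (ph n j x) := by
  apply HasCompactSupport.of_support_subset_isCompact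
    (isCompact_closedBall x (((2 : ℝ) ^ j)⁻¹))
  intro y hy
  exact ph_supp n j x y hy

theorem ph_int (n j : ℕ) (x : E n) : ∫ y, ph n j x y = 1 := by
  unfold ph
  rw [integral_const_mul]
  have h1 := integral_sub_right_eq_self (μ := (volume : Measure (E n)))
    (fun y : E n => chi n ((2 : ℝ) ^ j • y)) x
  rw [h1]
  have h2 := Measure.integral_comp_smul_of_nonneg (volume : Measure (E n)) (chi n) ((2 : ℝ) ^ j)
    (hR := by positivity)
  rw [h2, chi_int, finrank_euclideanSpace, Fintype.card_fin, smul_eq_mul, mul_one]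
  field_simp

noncomputable def Ph (n j : ℕ) (x : E n) : SchwartzMap (E n) ℝ :=
  (ph_compact n j x).toSchwartzMap (ph_smooth n j x)

theorem Ph_apply (n j : ℕ) (x y : E n) : Ph n j x y = ph n j x y := rfl

theorem pair_lo (n M N j : ℕ) (Q : Idx n) (a : E n → ℝ) (ha : IsAtom n M N Q a) (x : E n) :
    |∫ y, a y * ph n j x y| ≤ 1 := by
  rw [← ph_int n j x, ← Real.norm_eq_abs]
  apply norm_integral_le_of_norm_le
  · apply Continuous.integrable_of_hasCompactSupport (ph_smooth n j x).continuous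
      (ph_compact n j x)
  · filter_upwards with y
    rw [norm_mul, Real.norm_eq_abs, Real.norm_of_nonneg (ph_nonneg n j x y)]
    calc |a y| * ph n j x y ≤ 1 * ph n j x y := by
          gcongr
          · exact ph_nonneg n j x y
          · exact atom_le ha y
      _ = _ := one_mul _

theorem pair_up (hM : S_MOM) (n M N : ℕ) : ∃ C : ℝ, 0 ≤ C ∧ ∀ (j : ℕ) (Q : Idx n), j < Q.1 →
    ∀ (a : E n → ℝ), IsAtom n M N Q a → ∀ x : E n,
    |∫ y, a y * ph n j x y| ≤ C * ((2 : ℝ) ^ (Q.1 - j))⁻¹ ^ (N + 1 + n) := by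
  obtain ⟨D, hD⟩ := chi_D n N
  have hD0 : 0 ≤ D := (norm_nonneg _).trans (hD 0)
  refine ⟨D * (Real.sqrt n * (3 / 2)) ^ (N + 1 + n) *
    (volume (Metric.ball (0 : E n) 1)).toReal, by positivity, ?_⟩
  intro j Q hj a ha x
  have h := pair_hi hM n M N (chi n) (chi_smooth n) D hD Q (by omega) a ha ((2 : ℝ) ^ j)
    (by positivity) x
  have e1 : ∫ y, a y * ph n j x y =
      ((2 : ℝ) ^ j) ^ n * ∫ y, a y * chi n ((2 : ℝ) ^ j • (y - x)) := by
    rw [← integral_const_mul]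
    apply integral_congr_ae
    filter_upwards with y
    unfold ph
    ring
  rw [e1, abs_mul, abs_of_pos (by positivity : (0 : ℝ) < ((2 : ℝ) ^ j) ^ n)]
  have e2 : (2 : ℝ) ^ j * ((2 : ℝ) ^ Q.1)⁻¹ = ((2 : ℝ) ^ (Q.1 - j))⁻¹ := by
    have : (2 : ℝ) ^ Q.1 = (2 : ℝ) ^ (Q.1 - j) * (2 : ℝ) ^ j := by
      rw [← pow_add]
      congr 1
      omega
    rw [this, mul_inv]
    field_simp
  calc ((2 : ℝ) ^ j) ^ n * |∫ y, a y * chi n ((2 : ℝ) ^ j • (y - x))|
      ≤ ((2 : ℝ) ^ j) ^ n * (D * ((2 : ℝ) ^ j * (Real.sqrt n * (3 / 2) * ((2 : ℝ) ^ Q.1)⁻¹)) ^ (N + 1) *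
        ((Real.sqrt n * (3 / 2) * ((2 : ℝ) ^ Q.1)⁻¹) ^ n *
          (volume (Metric.ball (0 : E n) 1)).toReal)) := by
        gcongr
    _ = D * (Real.sqrt n * (3 / 2)) ^ (N + 1 + n) *
        (volume (Metric.ball (0 : E n) 1)).toReal * ((2 : ℝ) ^ j * ((2 : ℝ) ^ Q.1)⁻¹) ^ (N + 1 + n) := by
        ring
    _ = _ := by rw [e2]

end Pool.Agent.W855.BH
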