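import Pool.Agent.W91.BH.Stm2
import Pool.Agent.W855.BH.T4

set_option autoImplicit false

open MeasureTheory
open scoped ENNReal ContDiff Nat

namespace Pool.Agent.W855.BH

open Pool.Agent.W91.BH

theorem cc_eq (n : ℕ) (Q : Idx n) : cc n Q = ctr n Q := by
  unfold cc ctr
  congr 1
  ext i
  exact (div_eq_inv_mul _ _).symm

theorem pair (hM : S_MOM) : S_PAIR := by
  intro n M N
  obtain ⟨C₁, hC₁, hup⟩ := pair_up hM n M N
  have hsq : 0 ≤ Real.sqrt n := Real.sqrt_nonneg _
  refine ⟨C₁ + Real.sqrt n * (3 / 2) + 1, by positivity, Ph n, ?_, ?_, ?_, ?_⟩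
  · intro j x y
    exact ph_nonneg n j x y
  · intro j x
    exact ph_int n j x
  · intro j x y h
    have h1 := ph_supp n j x y h
    have h2 : ((2 : ℝ) ^ j)⁻¹ = (1 / 2 : ℝ) ^ j := by
      rw [one_div, inv_pow]
    rw [h2] at h1
    refine h1.trans ?_
    have h3 : (0 : ℝ) < (1 / 2 : ℝ) ^ j := by positivity
    nlinarith [mul_nonneg hC₁ h3.le, mul_nonneg hsq h3.le]
  · intro Q a ha j x
    constructor
    · change |∫ y, a y * ph n j x y| ≤ _
      unfold pw
      split_ifs with hkj
      · refine (pair_lo n M N j Q a ha x).trans ?_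
        nlinarith
      · push Not at hkj
        refine (hup j Q hkj a ha x).trans ?_
        have h1 : ((2 : ℝ) ^ (Q.1 - j))⁻¹ ^ (N + 1 + n) =
            ((1 / 2 : ℝ) ^ (Q.1 - j)) ^ (n + N + 1) := by
          have h0 : N + 1 + n = n + N + 1 := by omega
          rw [h0, one_div, inv_pow (2 : ℝ) (Q.1 - j)]
        rw [h1]
        gcongr
        linarith [mul_nonneg hsq (by norm_num : (0 : ℝ) ≤ 3 / 2)]
    · intro hr
      have hz : ∀ y, a y * ph n j x y = 0 := by
        intro y
        by_contra hne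
        have ha0 : a y ≠ 0 := left_ne_zero_of_mul hne
        have hp0 : ph n j x y ≠ 0 := right_ne_zero_of_mul hne
        have h1 := atom_supp ha ha0
        rw [Metric.mem_closedBall, cc_eq] at h1
        have h2 := ph_supp n j x y hp0
        have h3 : dist x (ctr n Q) ≤ dist x y + dist y (ctr n Q) := dist_triangle _ _ _
        rw [dist_comm x y] at h3
        unfold rad at hr
        have e1 : ((2 : ℝ) ^ j)⁻¹ = (1 / 2 : ℝ) ^ j := by rw [one_div, inv_pow]
        have e2 : ((2 : ℝ) ^ Q.1)⁻¹ = (1 / 2 : ℝ) ^ Q.1 := by rw [one_div, inv_pow]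
        rw [e1] at h2
        rw [e2] at h1
        have p1 : (0 : ℝ) < (1 / 2 : ℝ) ^ j := by positivity
        have p2 : (0 : ℝ) < (1 / 2 : ℝ) ^ Q.1 := by positivity
        nlinarith [mul_nonneg hC₁ p1.le, mul_nonneg hsq p1.le, mul_nonneg hC₁ p2.le,
          mul_nonneg hsq p2.le]
      have : (fun y => a y * Ph n j x y) = fun _ => 0 := by
        ext y
        exact hz y
      rw [this, integral_zero]

end Pool.Agent.W855.BH
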